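import Mathlib
import Pool.Agent.S09679

/-!
# Packing two graphs under a product condition on their Ore-degrees

If `G₁` and `G₂` are finite graphs with `n` vertices each and the product of their Ore-degrees is
less than `2 * n`, then they pack.
-/

set_option autoImplicit false

namespace Pool.Agent.Results.MP_7c6760_co.OreProductPacking

universe u v

/-- The Ore-degree of `G`: the maximum of `d(x) + d(y)` over the edges `xy` of `G`, and `0` if `G`
has no edges (the supremum of the empty set of natural numbers is `0`). -/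
noncomputable def oreDegree {V : Type*} (G : SimpleGraph V) : ℕ :=
  sSup {k : ℕ | ∃ x y : V, G.Adj x y ∧ k = (G.neighborSet x).ncard + (G.neighborSet y).ncard}

/-- `G₁` and `G₂` pack: some bijection of the vertex sets sends every edge of `G₁` to a pair of
vertices that is not an edge of `G₂`. -/
def Pack {V₁ V₂ : Type*} (G₁ : SimpleGraph V₁) (G₂ : SimpleGraph V₂) : Prop :=
  ∃ f : V₁ ≃ V₂, ∀ x y : V₁, G₁.Adj x y → ¬ G₂.Adj (f x) (f y)

theorem le_oreDegree {V : Type*} [Finite V] (G : SimpleGraph V) {x y : V} (h : G.Adj x y) :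
    (G.neighborSet x).ncard + (G.neighborSet y).ncard ≤ oreDegree G := by
  apply le_csSup
  · refine ⟨Nat.card V + Nat.card V, ?_⟩
    rintro k ⟨a, b, -, rfl⟩
    exact Nat.add_le_add (by rw [← Set.ncard_univ V]; exact Set.ncard_le_ncard (Set.subset_univ _))
      (by rw [← Set.ncard_univ V]; exact Set.ncard_le_ncard (Set.subset_univ _))
  · exact ⟨x, y, h, rfl⟩

/-- The degree in a graph pulled back along a bijection. -/
theorem degree_comap {V : Type*} {n : ℕ} (e : V ≃ Fin n) (G : SimpleGraph V)
    [DecidableRel (G.comap e.symm).Adj] (i : Fin n) :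
    (G.comap e.symm).degree i = (G.neighborSet (e.symm i)).ncard := by
  classical
  rw [← SimpleGraph.card_neighborFinset_eq_degree, ← Set.ncard_coe_finset]
  refine Set.ncard_congr (fun j _ => e.symm j) ?_ ?_ ?_
  · intro j hj
    simpa using hj
  · intro j k _ _ hjk
    exact e.symm.injective hjk
  · intro x hx
    exact ⟨e x, by simpa using hx, by simp⟩

theorem result {V₁ : Type u} {V₂ : Type v} [Finite V₁] [Finite V₂] (n : ℕ)
    (h₁ : Nat.card V₁ = n) (h₂ : Nat.card V₂ = n)
    (G₁ : SimpleGraph V₁) (G₂ : SimpleGraph V₂)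
    (h : oreDegree G₁ * oreDegree G₂ < 2 * n) : Pack G₁ G₂ := by
  classical
  obtain ⟨e₁⟩ : Nonempty (V₁ ≃ Fin n) := ⟨h₁ ▸ Finite.equivFin V₁⟩
  obtain ⟨e₂⟩ : Nonempty (V₂ ≃ Fin n) := ⟨h₂ ▸ Finite.equivFin V₂⟩
  obtain ⟨σ, hσ⟩ := Pool.Agent.S09679.result n (G₁.comap e₁.symm) (G₂.comap e₂.symm)
    (by
      intro x y u v hxy huv
      rw [degree_comap, degree_comap, degree_comap, degree_comap]
      exact lt_of_le_of_lt
        (Nat.mul_le_mul (le_oreDegree G₁ (by simpa using hxy)) (le_oreDegree G₂ (by simpa using huv)))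
        h)
  refine ⟨(e₁.trans σ).trans e₂.symm, fun x y hxy hbad => ?_⟩
  exact hσ (e₁ x) (e₁ y) (by simpa using hxy) (by simpa using hbad)

end Pool.Agent.Results.MP_7c6760_co.OreProductPacking
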